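import Pool.Agent.Helper78.AO.Goals

/-!
# AO-BRG: brute force for a bounded number of coins
-/

set_option autoImplicit false

namespace Pool.Agent.Helper89.AO

open Pool.Agent.Helper81.CC Pool.Agent.Helper51.ZP Pool.Agent.Helper78.DT Pool.Agent.Helper78.AO
open Pool.Agent.Helper40.DT (bt eqv cf_eqv filter_length arith)
open scoped Classical

/-- The probability as a fraction of the digit strings. -/
theorem pr_digits (n : ℕ) (R : (ℕ → Bool) → Bool) :
    pr (fun b : Fin n → Bool => R (cf b) = true) =
      (((List.range (2 ^ n)).filter fun i => R (cut n (bt i))).length : ℝ) / (2 : ℝ) ^ n := by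
  have h1 : ((List.range (2 ^ n)).filter fun i => R (cut n (bt i))).length =
      Nat.card {b : Fin n → Bool // R (cf b) = true} := by
    rw [filter_length]
    refine Nat.card_congr (Equiv.subtypeEquiv (eqv n) fun i => ?_)
    rw [cf_eqv]
  rw [h1, pr_eq_card, Fintype.card_fun, Fintype.card_bool, Fintype.card_fin]
  push_cast
  rfl

theorem brg : BrgStmt := by
  intro α _ R m s e M hR hm hs
  have hPtl : PtlStmt := Pool.Agent.Helper3.DT.ptl
  have hPtn : PtnStmt := Pool.Agent.Helper87.DT.ptn
  have hn : PolyTime (fun x : α => min (m x) M) := by fun_prop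
  have hpow : PolyTime (fun x : α => 2 ^ (min (m x) M)) :=
    (hPtl α (fun _ => 2 ^ M) (fun x => min (m x) M) (fun _ => 2) (PolyTime.const _) hn
      (PolyTime.const _)).2.2.2.2 fun a => Nat.pow_le_pow_right (by norm_num) (min_le_right _ _)
  have hlg : PolyTime (fun x : α => lg (s x)) := (hPtl α s s s hs hs hs).1
  have hlge : PolyTime (fun x : α => lg (s x) ^ e) := PolyTime.pow hlg e
  have hbt : PolyTime (fun z : (α × ℕ) × ℕ => bt z.1.2 z.2) := by
    have h1 : PolyTime (fun z : (α × ℕ) × ℕ => dg 2 z.1.2 z.2) :=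
      (hPtn ((α × ℕ) × ℕ)).2 (fun _ => 2) (fun z => z.1.2) (fun z => z.2) (PolyTime.const _)
        (by fun_prop) (by fun_prop)
    unfold bt
    fun_prop
  have hcut : PolyTime (fun z : (α × ℕ) × ℕ => cut (m z.1.1) (bt z.1.2) z.2) := by
    have h1 : PolyTime (fun z : (α × ℕ) × ℕ => m z.1.1) := PolyTime.comp hm (by fun_prop)
    unfold cut
    exact PolyTime.and (PolyTime.decide_lt (by fun_prop) h1) hbt
  have hres : PolyTime (fun z : α × ℕ => R z.1 0 0 (fun _ => 0) (cut (m z.1) (bt z.2))) :=
    hR (α × ℕ) (fun z => z.1) (fun _ => 0) (fun _ => 0) (fun _ _ => 0) (fun z => cut (m z.1) (bt z.2))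
      (by fun_prop) (PolyTime.const _) (PolyTime.const _) (PolyTime.const _) hcut
  have hcount : PolyTime (fun x : α => ((List.range (2 ^ (min (m x) M))).filter fun i =>
      R x 0 0 (fun _ => 0) (cut (m x) (bt i))).length) :=
    PolyTime.length (PolyTime.filter (PolyTime.range hpow) hres)
  refine ⟨fun x => (2 * lg (s x) ^ e * ((List.range (2 ^ (min (m x) M))).filter fun i =>
      R x 0 0 (fun _ => 0) (cut (m x) (bt i))).length +
      2 ^ (min (m x) M)) / (2 * 2 ^ (min (m x) M)), ?_, ?_⟩
  · exact PolyTime.div (PolyTime.add (PolyTime.mul (PolyTime.mul (PolyTime.const _) hlge) hcount)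
      hpow) (PolyTime.mul (PolyTime.const _) hpow)
  · intro x hx
    have hmin : min (m x) M = m x := min_eq_left hx
    simp only [hmin]
    rw [pr_digits (m x) (fun b => R x 0 0 (fun _ => 0) b)]
    have h := arith ((2 * lg (s x) ^ e * ((List.range (2 ^ m x)).filter fun i =>
      R x 0 0 (fun _ => 0) (cut (m x) (bt i))).length + 2 ^ m x) / (2 * 2 ^ m x))
      ((List.range (2 ^ m x)).filter fun i => R x 0 0 (fun _ => 0) (cut (m x) (bt i))).length
      (2 ^ m x) (lg (s x) ^ e) (by positivity) (pow_pos (by unfold lg; omega) e) rfl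
    push_cast at h ⊢
    exact h

end Pool.Agent.Helper89.AO
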